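import Pool.Agent.W787.PS.StmA

/-!
Project PS (helper787), MP_577350_an: MONO, SCM, SCAL, JEN.
-/

set_option autoImplicit false

open MeasureTheory Set Metric Filter Topology

noncomputable section

namespace Pool.Agent.W636.PS

open Pool.Agent.W787.PS

theorem nsq_nonneg (f : ℂ → ℝ) (x : ℂ) : 0 ≤ nsq f x := by
  unfold nsq; positivity

theorem mono : S_MONO := by
  intro Λ R L ε R' L' ε' ρ g w h hR hL hε
  have hsub : ball (0 : ℂ) R' ⊆ ball 0 R := ball_subset_ball hR
  refine ⟨h.diff, h.supp, h.nonneg, h.mass, h.g_diff.mono hsub, fun x hx => ?_, h.w_diff.mono hsub,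
    h.w_int.mono_set hsub, ?_, fun x hx => h.eq x (hsub hx)⟩
  · exact (h.g_grad x (hsub hx)).trans hL
  · refine le_trans ?_ (h.w_en.trans hε)
    exact setIntegral_mono_set h.w_int (Eventually.of_forall fun x => nsq_nonneg w x)
      (Eventually.of_forall hsub)

/-- change of variables, whole plane -/
theorem int_aff (h : ℂ → ℝ) (a : ℂ) (s : ℝ) (hs : 0 < s) :
    ∫ y, h (a + s * y) = (s ^ 2)⁻¹ * ∫ y, h y := by
  have h1 := MeasureTheory.Measure.integral_comp_smul (volume : Measure ℂ) (fun z => h (a + z)) s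
  have h2 : ∫ y, h (a + s * y) = ∫ y : ℂ, (fun z => h (a + z)) (s • y) := by
    refine integral_congr_ae (Eventually.of_forall fun y => ?_)
    simp [Complex.real_smul]
  rw [h2, h1, Complex.finrank_real_complex, smul_eq_mul, abs_of_pos (by positivity)]
  congr 1
  exact integral_add_left_eq_self h a

theorem mem_aff (a b y : ℂ) (s t : ℝ) (hs : 0 < s) :
    y ∈ ball b t ↔ a + s * y ∈ ball (a + s * b) (s * t) := by
  rw [mem_ball, mem_ball, dist_eq_norm, dist_eq_norm]
  have : a + s * y - (a + s * b) = (s : ℂ) * (y - b) := by ring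
  rw [this, norm_mul, Complex.norm_real, Real.norm_of_nonneg hs.le]
  constructor
  · intro h; exact mul_lt_mul_of_pos_left h hs
  · intro h; exact lt_of_mul_lt_mul_left h hs.le

/-- change of variables, balls -/
theorem int_aff_ball (h : ℂ → ℝ) (a b : ℂ) (s t : ℝ) (hs : 0 < s) :
    ∫ y in ball b t, h (a + s * y) = (s ^ 2)⁻¹ * ∫ y in ball (a + s * b) (s * t), h y := by
  rw [← integral_indicator measurableSet_ball, ← integral_indicator measurableSet_ball,
    ← int_aff _ a s hs]
  refine integral_congr_ae (Eventually.of_forall fun y => ?_)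
  by_cases hy : y ∈ ball b t
  · have hy' := (mem_aff a b y s t hs).1 hy
    simp only [indicator_of_mem hy, indicator_of_mem hy']
  · have hy' : a + s * y ∉ ball (a + s * b) (s * t) := fun h' => hy ((mem_aff a b y s t hs).2 h')
    simp only [indicator_of_notMem hy, indicator_of_notMem hy']

theorem scm : S_SCM := by
  refine ⟨fun h a b s t hs => ?_, fun ρ a b s t hs => ?_, fun ρ a s hs => ?_⟩
  · unfold avg
    rw [int_aff_ball h a b s t hs, ← mul_assoc]
    congr 1
    rw [← mul_inv]
    congr 1
    ring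
  · unfold ms scρ
    rw [integral_const_mul, int_aff_ball ρ a b s t hs, ← mul_assoc, mul_inv_cancel₀ (by positivity),
      one_mul]
  · unfold scρ
    rw [integral_const_mul, int_aff ρ a s hs, ← mul_assoc, mul_inv_cancel₀ (by positivity), one_mul]

/-! ### scaling of data -/

theorem contDiff_aff (a : ℂ) (s : ℝ) : ContDiff ℝ 1 (fun y : ℂ => a + s * y) :=
  contDiff_const.add (contDiff_const.mul contDiff_id)

theorem hasFDerivAt_aff (a : ℂ) (s : ℝ) (y : ℂ) :
    HasFDerivAt (fun y : ℂ => a + s * y) (s • ContinuousLinearMap.id ℝ ℂ) y := by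
  have h : HasFDerivAt (fun y : ℂ => a + s • y) (s • ContinuousLinearMap.id ℝ ℂ) y := by
    have := ((hasFDerivAt_id (𝕜 := ℝ) y).const_smul s).const_add a
    exact this
  refine h.congr_of_eventuallyEq (Eventually.of_forall fun z => ?_)
  simp [Complex.real_smul]

theorem nsq_comp (f : ℂ → ℝ) (a : ℂ) (s c : ℝ) (y : ℂ) (hf : DifferentiableAt ℝ f (a + s * y)) :
    nsq (fun y => f (a + s * y) + c) y = s ^ 2 * nsq f (a + s * y) := by
  have h1 : HasFDerivAt (fun y : ℂ => f (a + s * y) + c)
      ((fderiv ℝ f (a + s * y)).comp (s • ContinuousLinearMap.id ℝ ℂ)) y :=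
    (hf.hasFDerivAt.comp y (hasFDerivAt_aff a s y)).add_const c
  unfold nsq
  rw [h1.fderiv]
  simp only [ContinuousLinearMap.comp_apply, smul_apply,
    ContinuousLinearMap.id_apply, map_smul, smul_eq_mul]
  ring

theorem maps_aff (a : ℂ) (s R' R : ℝ) (hs : 0 < s) (h : ‖a‖ + s * R' ≤ R) :
    ∀ y ∈ ball (0 : ℂ) R', a + s * y ∈ ball (0 : ℂ) R := by
  intro y hy
  rw [mem_ball_zero_iff] at hy ⊢
  calc ‖a + s * y‖ ≤ ‖a‖ + ‖(s : ℂ) * y‖ := norm_add_le _ _
    _ = ‖a‖ + s * ‖y‖ := by rw [norm_mul, Complex.norm_real, Real.norm_of_nonneg hs.le]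
    _ < ‖a‖ + s * R' := by gcongr
    _ ≤ R := h

theorem pot_scale (h : S_POTI) (ρ : ℂ → ℝ) (hc : Continuous ρ) (hs' : HasCompactSupport ρ) (a : ℂ)
    (s : ℝ) (hs : 0 < s) (x : ℂ) :
    pot (scρ ρ a s) x = pot ρ (a + s * x) + Real.log s / (2 * Real.pi) * ∫ y, ρ y := by
  have hI := (h ρ hc hs').1 (a + s * x)
  have hρ : Integrable ρ := hc.integrable_of_hasCompactSupport hs'
  have h1 : ∫ y, Real.log ‖x - y‖ * scρ ρ a s y =
      ∫ y, (fun z => s ^ 2 * ((Real.log ‖a + s * x - z‖ - Real.log s) * ρ z)) (a + s * y) := by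
    refine integral_congr_ae ?_
    have hne : ∀ᵐ y : ℂ, y ≠ x := by
      refine (measure_eq_zero_iff_ae_notMem.1 (measure_singleton x)).mono fun y hy => ?_
      simpa using hy
    filter_upwards [hne] with y hy
    have h2 : a + s * x - (a + s * y) = (s : ℂ) * (x - y) := by ring
    have h3 : ‖x - y‖ ≠ 0 := by
      rw [norm_ne_zero_iff]; exact sub_ne_zero.2 (Ne.symm hy)
    simp only [scρ]
    rw [h2, norm_mul, Complex.norm_real, Real.norm_of_nonneg hs.le, Real.log_mul hs.ne' h3]
    ring
  unfold pot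
  rw [h1, int_aff (fun z => s ^ 2 * ((Real.log ‖a + s * x - z‖ - Real.log s) * ρ z)) a s hs,
    integral_const_mul, ← mul_assoc ((s ^ 2)⁻¹), inv_mul_cancel₀ (by positivity), one_mul]
  have h4 : ∫ z, (Real.log ‖a + s * x - z‖ - Real.log s) * ρ z =
      (∫ z, Real.log ‖a + s * x - z‖ * ρ z) - Real.log s * ∫ z, ρ z := by
    rw [← integral_const_mul, ← integral_sub hI (hρ.const_mul _)]
    refine integral_congr_ae (Eventually.of_forall fun z => ?_)
    simp only
    ring
  rw [h4]
  have hpi := Real.pi_ne_zero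
  field_simp
  ring

theorem scal (h : S_POTI) : S_SCAL := by
  intro Λ R L ε ρ g w hd a s R' hs hR' hR
  have hmap := maps_aff a s R' R hs hR
  have hgd : ∀ y ∈ ball (0 : ℂ) R', DifferentiableAt ℝ g (a + s * y) := fun y hy =>
    (hd.g_diff.differentiableOn one_ne_zero).differentiableAt (isOpen_ball.mem_nhds (hmap y hy))
  have hwd : ∀ y ∈ ball (0 : ℂ) R', DifferentiableAt ℝ w (a + s * y) := fun y hy =>
    (hd.w_diff.differentiableOn one_ne_zero).differentiableAt (isOpen_ball.mem_nhds (hmap y hy))
  have hgn : ∀ y ∈ ball (0 : ℂ) R', nsq (scg ρ g a s) y = s ^ 2 * nsq g (a + s * y) := by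
    intro y hy
    have := nsq_comp g a s (2 * Real.log s - Real.log s / (2 * Real.pi) * ∫ x, ρ x) y (hgd y hy)
    rw [← this]
    congr 1
    funext z
    simp only [scg]
    ring
  have hwn : ∀ y ∈ ball (0 : ℂ) R', nsq (scw w a s) y = s ^ 2 * nsq w (a + s * y) := by
    intro y hy
    have := nsq_comp w a s 0 y (hwd y hy)
    rw [← this]
    congr 1
    funext z
    simp only [scw]
    ring
  have hsub : ball (a : ℂ) (s * R') ⊆ ball 0 R := by
    refine ball_subset_ball' ?_
    rw [dist_zero_right]
    linarith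
  have hI0 : IntegrableOn (nsq w) (ball a (s * R')) := hd.w_int.mono_set hsub
  refine ⟨?_, ?_, ?_, ?_, ?_, ?_, ?_, ?_, ?_, ?_⟩
  · exact contDiff_const.mul (hd.diff.comp (contDiff_aff a s))
  · have hsc : HasCompactSupport (fun y : ℂ => ρ (a + s * y)) := by
      have hne : (s : ℂ) ≠ 0 := by exact_mod_cast hs.ne'
      exact hd.supp.comp_homeomorph ((Homeomorph.mulLeft₀ (s : ℂ) hne).trans (Homeomorph.addLeft a))
    exact hsc.mul_left
  · intro x
    exact mul_nonneg (sq_nonneg s) (hd.nonneg _)
  · rw [scm.2.2 ρ a s hs]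
    exact hd.mass
  · have : ContDiffOn ℝ 1 (fun y : ℂ => g (a + s * y)) (ball 0 R') :=
      hd.g_diff.comp (contDiff_aff a s).contDiffOn hmap
    unfold scg
    exact (this.add contDiffOn_const).sub contDiffOn_const
  · intro x hx
    rw [hgn x hx, mul_pow]
    have := hd.g_grad _ (hmap x hx)
    gcongr
  · exact hd.w_diff.comp (contDiff_aff a s).contDiffOn hmap
  · have h1 : IntegrableOn (fun y => s ^ 2 * nsq w (a + s * y)) (ball 0 R') := by
      refine Integrable.const_mul ?_ _
      have hne : (s : ℂ) ≠ 0 := by exact_mod_cast hs.ne'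
      have h2 : Integrable ((ball a (s * R')).indicator (nsq w)) :=
        (integrable_indicator_iff measurableSet_ball).2 hI0
      have h3 : Integrable (fun y : ℂ => (ball a (s * R')).indicator (nsq w) (a + s * y)) := by
        have h4 : Integrable (fun z : ℂ => (ball a (s * R')).indicator (nsq w) (a + z)) :=
          h2.comp_add_left a
        have h5 := (integrable_comp_smul_iff (volume : Measure ℂ) _ hs.ne').2 h4
        refine h5.congr (Eventually.of_forall fun y => ?_)
        simp [Complex.real_smul]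
      change IntegrableOn (fun y : ℂ => nsq w (a + s * y)) (ball 0 R')
      rw [← integrable_indicator_iff measurableSet_ball]
      refine h3.congr (Eventually.of_forall fun y => ?_)
      by_cases hy : y ∈ ball (0 : ℂ) R'
      · have hy' := (mem_aff a 0 y s R' hs).1 hy
        rw [mul_zero, add_zero] at hy'
        simp only [indicator_of_mem hy, indicator_of_mem hy']
      · have hy' : a + s * y ∉ ball a (s * R') := fun h' =>
          hy ((mem_aff a 0 y s R' hs).2 (by rw [mul_zero, add_zero]; exact h'))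
        simp only [indicator_of_notMem hy, indicator_of_notMem hy']
    exact h1.congr_fun (fun y hy => (hwn y hy).symm) measurableSet_ball
  · rw [setIntegral_congr_fun measurableSet_ball hwn, integral_const_mul,
      int_aff_ball (nsq w) a 0 s R' hs, ← mul_assoc, mul_inv_cancel₀ (by positivity), one_mul,
      mul_zero, add_zero]
    refine le_trans ?_ hd.w_en
    exact setIntegral_mono_set hd.w_int (Eventually.of_forall fun x => nsq_nonneg w x)
      (Eventually.of_forall hsub)
  · intro x hx
    rw [pot_scale h ρ hd.diff.continuous hd.supp a s hs x]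
    simp only [scρ, scg, scw]
    rw [hd.eq _ (hmap x hx)]
    have : Real.exp (pot ρ (a + s * x) + Real.log s / (2 * Real.pi) * (∫ y, ρ y) +
        (g (a + s * x) + 2 * Real.log s - Real.log s / (2 * Real.pi) * ∫ x, ρ x) +
        w (a + s * x)) = Real.exp (Real.log s) * Real.exp (Real.log s) *
        Real.exp (pot ρ (a + s * x) + g (a + s * x) + w (a + s * x)) := by
      rw [← Real.exp_add, ← Real.exp_add]
      congr 1
      ring
    rw [this, Real.exp_log hs]
    ring

theorem jen : S_JEN := by
  intro Λ R L ε ρ g w hd a r hr hR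
  have hcb : closedBall a r ⊆ ball (0 : ℂ) R := by
    refine closedBall_subset_ball' ?_
    rw [dist_zero_right]; linarith
  have hpos : ∀ x ∈ closedBall a r, 0 < ρ x := fun x hx => by
    rw [hd.eq x (hcb hx)]; exact Real.exp_pos _
  have hcl : ContinuousOn (fun x => Real.log (ρ x)) (closedBall a r) := fun x hx =>
    (hd.diff.continuous.continuousAt.log (hpos x hx).ne').continuousWithinAt
  have hI1 : IntegrableOn (fun x => Real.log (ρ x)) (ball a r) :=
    (hcl.integrableOn_compact (isCompact_closedBall a r)).mono_set ball_subset_closedBall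
  have hI2 : IntegrableOn ρ (ball a r) :=
    (hd.diff.continuous.continuousOn.integrableOn_compact (isCompact_closedBall a r)).mono_set
      ball_subset_closedBall
  have hvol : (volume (ball a r)).toReal = Real.pi * r ^ 2 := by
    rw [Complex.volume_ball]
    simp [ENNReal.toReal_mul, ENNReal.toReal_ofReal hr.le, mul_comm]
  have hvpos : 0 < Real.pi * r ^ 2 := by positivity
  have hv0 : volume (ball a r) ≠ 0 := (measure_ball_pos volume a hr).ne'
  have hvt : volume (ball a r) ≠ ⊤ := measure_ball_lt_top.ne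
  have hI3 : IntegrableOn (fun x => Real.exp (Real.log (ρ x))) (ball a r) := by
    refine hI2.congr_fun (fun x hx => ?_) measurableSet_ball
    rw [Real.exp_log (hpos x (ball_subset_closedBall hx))]
  have hJ := ConvexOn.map_set_average_le (μ := volume) (t := ball a r) (s := univ)
    (f := fun x => Real.log (ρ x)) (g := Real.exp) convexOn_exp Real.continuous_exp.continuousOn
    isClosed_univ hv0 hvt (Eventually.of_forall fun _ => mem_univ _) hI1 hI3
  have e1 : ⨍ x in ball a r, Real.log (ρ x) = avg (fun x => Real.log (ρ x)) a r := by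
    rw [setAverage_eq, Measure.real, hvol, smul_eq_mul, avg]
  have e2 : ⨍ x in ball a r, Real.exp (Real.log (ρ x)) = (Real.pi * r ^ 2)⁻¹ * ms ρ a r := by
    rw [setAverage_eq, Measure.real, hvol, smul_eq_mul, ms]
    congr 1
    refine setIntegral_congr_fun measurableSet_ball fun x hx => ?_
    rw [Real.exp_log (hpos x (ball_subset_closedBall hx))]
  rw [e1] at hJ
  have hJ' : Real.exp (avg (fun x => Real.log (ρ x)) a r) ≤ (Real.pi * r ^ 2)⁻¹ * ms ρ a r := by
    rw [← e2]; exact hJ
  calc Real.pi * r ^ 2 * Real.exp (avg (fun x => Real.log (ρ x)) a r)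
      ≤ Real.pi * r ^ 2 * ((Real.pi * r ^ 2)⁻¹ * ms ρ a r) := by gcongr
    _ = ms ρ a r := by rw [← mul_assoc, mul_inv_cancel₀ hvpos.ne', one_mul]

end Pool.Agent.W636.PS
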